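import Pool.Agent.helper92.ISO.SpecG

/-!
# Project ISO (MP_069684_lc), row PRM: a random set of density `x`
-/

set_option autoImplicit false

namespace Pool.Agent.ISO

theorem PRM_split (R : ℕ) (K : Finset (Fin R)) (f : Finset (Fin R) → ℝ) :
    ∑ T : Finset (Fin R), f T = ∑ A ∈ K.powerset, ∑ B ∈ Kᶜ.powerset, f (A ∪ B) := by
  classical
  rw [← Finset.sum_product']
  symm
  refine Finset.sum_nbij' (fun q => q.1 ∪ q.2) (fun T => (T ∩ K, T \ K)) ?_ ?_ ?_ ?_ ?_
  · intro q _
    exact Finset.mem_univ _
  · intro T _
    rw [Finset.mem_product, Finset.mem_powerset, Finset.mem_powerset]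
    refine ⟨Finset.inter_subset_right, ?_⟩
    intro i hi
    rw [Finset.mem_sdiff] at hi
    rw [Finset.mem_compl]
    exact hi.2
  · rintro ⟨A, B⟩ hq
    rw [Finset.mem_product, Finset.mem_powerset, Finset.mem_powerset] at hq
    obtain ⟨hA, hB⟩ := hq
    have hB' : ∀ i ∈ B, i ∉ K := fun i hi => Finset.mem_compl.1 (hB hi)
    apply Prod.ext
    · ext i
      simp only [Finset.mem_inter, Finset.mem_union]
      constructor
      · rintro ⟨h1 | h1, h2⟩
        · exact h1
        · exact absurd h2 (hB' i h1)
      · intro h1
        exact ⟨Or.inl h1, hA h1⟩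
    · ext i
      simp only [Finset.mem_sdiff, Finset.mem_union]
      constructor
      · rintro ⟨h1 | h1, h2⟩
        · exact absurd (hA h1) h2
        · exact h1
      · intro h1
        exact ⟨Or.inr h1, hB' i h1⟩
  · intro T _
    ext i
    simp only [Finset.mem_union, Finset.mem_inter, Finset.mem_sdiff]
    tauto
  · intro q _
    rfl

theorem PRM_proof : PRM_stmt := by
  classical
  intro R K x
  constructor
  · rw [Fin.sum_pow_mul_eq_add_pow]
    norm_num
  · intro r
    rw [PRM_split R K]
    have h1 : ∀ A ∈ K.powerset, ∑ B ∈ Kᶜ.powerset, (if ((A ∪ B) ∩ K).card = r then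
        x ^ (A ∪ B).card * (1 - x) ^ (R - (A ∪ B).card) else 0) =
        if A.card = r then x ^ r * (1 - x) ^ (K.card - r) else 0 := by
      intro A hA
      rw [Finset.mem_powerset] at hA
      have h2 : ∀ B ∈ Kᶜ.powerset, (if ((A ∪ B) ∩ K).card = r then
          x ^ (A ∪ B).card * (1 - x) ^ (R - (A ∪ B).card) else 0) =
          (if A.card = r then x ^ r * (1 - x) ^ (K.card - r) else 0) * (x ^ B.card * (1 - x) ^ (Kᶜ.card - B.card)) := by
        intro B hB
        rw [Finset.mem_powerset] at hB
        have e1 : (A ∪ B) ∩ K = A := by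
          ext i
          simp only [Finset.mem_inter, Finset.mem_union]
          constructor
          · rintro ⟨h3 | h3, h4⟩
            · exact h3
            · exact absurd h4 (Finset.mem_compl.1 (hB h3))
          · intro h3
            exact ⟨Or.inl h3, hA h3⟩
        have e2 : Disjoint A B := by
          rw [Finset.disjoint_left]
          intro i hi hi'
          exact Finset.mem_compl.1 (hB hi') (hA hi)
        rw [e1, Finset.card_union_of_disjoint e2]
        by_cases h3 : A.card = r
        · rw [if_pos h3, if_pos h3, h3]
          have c1 : r ≤ K.card := by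
            rw [← h3]
            exact Finset.card_le_card hA
          have c2 : B.card ≤ Kᶜ.card := Finset.card_le_card hB
          have c3 : K.card + Kᶜ.card = R := by
            rw [Finset.card_add_card_compl, Fintype.card_fin]
          have c4 : R - (r + B.card) = (K.card - r) + (Kᶜ.card - B.card) := by omega
          rw [c4, pow_add, pow_add]
          ring
        · rw [if_neg h3, if_neg h3, zero_mul]
      rw [Finset.sum_congr rfl h2, ← Finset.mul_sum, Finset.sum_pow_mul_eq_add_pow]
      norm_num
    rw [Finset.sum_congr rfl h1, ← Finset.sum_filter, Finset.sum_const, nsmul_eq_mul]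
    have h3 : (K.powerset.filter fun A => A.card = r) = K.powersetCard r := by
      ext A
      rw [Finset.mem_filter, Finset.mem_powerset, Finset.mem_powersetCard]
    rw [h3, Finset.card_powersetCard]
    ring

end Pool.Agent.ISO
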